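import Pool.Agent.Results.MP_43ab0a_gt.PuncturedTorusBundles
import Pool.Agent.Results.MP_43ab0a_gt.CyclicCoversFigureEight
import Pool.Agent.H62.TB.Rad
import Pool.Agent.H62.TB.Gal

/-!
# The spectral radii of the quantum representations of the torus with one hole

`Σ` is the torus with one hole and `u` is a word in the Dehn twists `s_1`, `s_2` along two curves in `Σ`
which meet in one point (they generate the mapping class group of `Σ` rel boundary); `u` is
pseudo-Anosov if and only if its trace in `SL(2, ℤ)` has an absolute value greater than `2`.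
`representation ((r - 1) / 2 - c) c A u` is the matrix `ρ_{r,c} (u)` of the SO(3)-representation with the
colour `2 c` of the boundary, `r` odd, at a primitive root of unity `A` of order `2 r`; `root r` is
`A_r = exp (π i / r)`.  `turaevViro u r` is the
Turaev-Viro invariant `∑_c |Tr ρ_{r,c} (u)|^2` of the bundle `M_u` over the circle with the monodromy `u`,
and `vol` is its hyperbolic volume.  These are the definitions of the modules
`MP_43ab0a_gt.PuncturedTorusBundles` and `MP_43ab0a_gt.CyclicCoversFigureEight`.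
-/

set_option autoImplicit false

namespace Pool.Agent.Results.MP_f2e6dc_gt.QuantumSpectralRadius

open Finset Matrix Filter Topology
open Pool.Agent.Results.MP_43ab0a_gt.PuncturedTorusBundles (Letter Conjugate matrix power delta
  alternating toWord representation root turaevViro rate vol v3)
open Pool.Agent.Results.MP_43ab0a_gt.CyclicCoversFigureEight (bracket)
open Pool.Agent.Results.MP_43ab0a_gt

/-- The quantum spectral radius: the largest absolute value of an eigenvalue of one of the matrices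
`ρ_{r,c} (u)`, `0 ≤ c < (r - 1) / 2`. -/
noncomputable def radius (u : List Letter) (r : ℕ) : ℝ :=
  sSup {x : ℝ | ∃ c : ℕ, c < (r - 1) / 2 ∧
    ∃ z ∈ spectrum ℂ (representation ((r - 1) / 2 - c) c (root r) u), x = ‖z‖}

/-- The growth rate `2 π / (r - 2) log (radius u r)^2` of the square of the radius. -/
noncomputable def growth (u : List Letter) (r : ℕ) : ℝ :=
  2 * Real.pi / ((r : ℝ) - 2) * Real.log (radius u r ^ 2)

/-- There is a colour `2 c` of the boundary such that for all primitive roots of unity `A` of order `2 r`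
the image of `u` in the projective linear group, under the representation `ρ_{r,c}` at `A`, has infinite
order. -/
def InfiniteOrder (u : List Letter) (r : ℕ) : Prop :=
  ∃ c : ℕ, c < (r - 1) / 2 ∧ ∀ A : ℂ, IsPrimitiveRoot A (2 * r) → ∀ k : ℕ, 1 ≤ k → ∀ lam : ℂ,
    representation ((r - 1) / 2 - c) c A u ^ k ≠
      lam • (1 : Matrix (Fin ((r - 1) / 2 - c)) (Fin ((r - 1) / 2 - c)) ℂ)

/-! ### Bridges -/

lemma half_odd (M : ℕ) : (2 * M + 1 - 1) / 2 = M := by omega

lemma root_odd (M : ℕ) : root (2 * M + 1) = Pool.Agent.H62.TV.sh M :=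
  Pool.Agent.Results.MP_43ab0a_gt.CyclicCoversFigureEight.root_odd M

lemma radius_odd (u : List Letter) (M : ℕ) : radius u (2 * M + 1) = Pool.Agent.H62.TB.Rad.rad u M := by
  unfold radius Pool.Agent.H62.TB.Rad.rad Pool.Agent.H62.TB.Rad.evs
  rw [half_odd, root_odd]
  rfl

lemma growth_odd (u : List Letter) (M : ℕ) : growth u (2 * M + 1) =
    Pool.Agent.H62.CYC.sc M * (2 * Real.log (Pool.Agent.H62.TB.Rad.rad u M)) := by
  unfold growth Pool.Agent.H62.CYC.sc
  rw [radius_odd, Real.log_pow]
  congr 2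
  push_cast
  ring

lemma root_prim (M : ℕ) : IsPrimitiveRoot (Pool.Agent.H62.TV.sh M) (2 * (2 * M + 1)) := by
  have h1 := Complex.isPrimitiveRoot_exp (2 * (2 * M + 1)) (by omega)
  have h2 : (2 * Real.pi * Complex.I / ((2 * (2 * M + 1) : ℕ) : ℂ)) =
      Real.pi * Complex.I / ((2 * M + 1 : ℕ) : ℂ) := by
    have h3 : ((2 * M + 1 : ℕ) : ℂ) ≠ 0 := by exact_mod_cast (by omega : 2 * M + 1 ≠ 0)
    rw [Nat.cast_mul]
    push_cast at h3 ⊢
    field_simp
  rw [h2] at h1
  rw [← root_odd]
  exact h1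

lemma infinite_odd {u : List Letter} {M : ℕ} (hM : 1 ≤ M)
    (h : 1 < Pool.Agent.H62.TB.Rad.rad u M) : InfiniteOrder u (2 * M + 1) := by
  obtain ⟨c, hc, hinf⟩ := Pool.Agent.H62.TB.Rad.infinite u hM h
  unfold InfiniteOrder
  rw [half_odd]
  exact ⟨c, hc, fun A hA k hk lam => Pool.Agent.H62.TB.Gal.galois (by omega) (root_prim M) hA
    (by omega) c u k (hinf k hk) lam⟩

lemma rate_odd (u : List Letter) (M : ℕ) : rate u (2 * M + 1) =
    Pool.Agent.H62.CYC.sc M * Real.log (Pool.Agent.H62.TB.tvt u (2 * M + 1)) := by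
  rw [Pool.Agent.Results.MP_43ab0a_gt.PuncturedTorusBundles.rate_eq]
  unfold Pool.Agent.H62.CYC.sc
  congr 2
  push_cast
  ring

/-- the lower bound for the radius -/
lemma tv_le (u : List Letter) {M : ℕ} (hM : 1 ≤ M) :
    turaevViro u (2 * M + 1) ≤ (M : ℝ) ^ 3 * radius u (2 * M + 1) ^ 2 := by
  have h1 := Pool.Agent.H62.TB.Rad.tvt_pw_le u hM (k := 1) le_rfl
  rw [pow_one] at h1
  have e : Pool.Agent.H62.CYC.pw 1 u = u := by
    unfold Pool.Agent.H62.CYC.pw
    simp
  rw [e] at h1
  rw [Pool.Agent.Results.MP_43ab0a_gt.PuncturedTorusBundles.turaevViro_eq, radius_odd]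
  exact h1

lemma tv_nonneg (u : List Letter) (r : ℕ) : 0 ≤ turaevViro u r := by
  unfold turaevViro
  exact sum_nonneg fun c _ => by positivity

lemma hconj {u w : List Letter} {j : ℤ} {n : ℕ}
    (hu : Conjugate u (delta (2 * j) ++ power (bracket w) n)) :
    ∀ (G : Type) [Group G] (x y : G), x * y * x = y * x * y → ∃ g : G,
      Pool.Agent.H62.TV.vlu x y u = g * ((x * y * x) ^ (2 * j) *
        Pool.Agent.H62.TV.vlu x y (Pool.Agent.H62.CYC.comm w) ^ n) * g⁻¹ := by
  intro G _ x y hxy
  obtain ⟨g, hg⟩ := hu G x y hxy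
  refine ⟨g, ?_⟩
  rw [← Pool.Agent.Results.MP_43ab0a_gt.CyclicCoversFigureEight.bracket_eq,
    ← Pool.Agent.Results.MP_43ab0a_gt.PuncturedTorusBundles.value_eq, hg,
    Pool.Agent.Results.MP_43ab0a_gt.PuncturedTorusBundles.value_eq,
    Pool.Agent.H62.TV.vlu_append,
    ← Pool.Agent.Results.MP_43ab0a_gt.PuncturedTorusBundles.value_eq x y (delta _),
    Pool.Agent.Results.MP_43ab0a_gt.PuncturedTorusBundles.value_delta]
  congr 3
  exact Pool.Agent.H62.TV.vlu_pow x y _ n

/-- the upper bound for the radius -/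
lemma radius_le {u w : List Letter} {j : ℤ} {n : ℕ} (hn : 1 ≤ n)
    (hu : Conjugate u (delta (2 * j) ++ power (bracket w) n)) {M : ℕ} (hM : 1 ≤ M) :
    radius u (2 * M + 1) ^ 2 ≤
      19 * (M : ℝ) ^ 2 * (1024 * (M : ℝ) ^ 5) ^ n * (turaevViro u (2 * M + 1) + 1) := by
  rw [Pool.Agent.Results.MP_43ab0a_gt.PuncturedTorusBundles.turaevViro_eq, radius_odd]
  exact Pool.Agent.H62.TB.Rad.rad_comm' hn (hconj hu) hM

lemma growth_odd' (u : List Letter) (M : ℕ) : growth u (2 * M + 1) =
    Pool.Agent.H62.CYC.sc M * Real.log (Pool.Agent.H62.TB.Rad.rad u M ^ 2) := by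
  rw [growth_odd, Real.log_pow]
  push_cast
  ring

lemma growth_iff {u w : List Letter} {j : ℤ} {n : ℕ} (hn : 1 ≤ n)
    (hu : Conjugate u (delta (2 * j) ++ power (bracket w) n)) {V : ℝ} (hV : 0 < V) :
    Tendsto (growth u) (atTop ⊓ 𝓟 {r : ℕ | Odd r}) (𝓝 V) ↔
      Tendsto (rate u) (atTop ⊓ 𝓟 {r : ℕ | Odd r}) (𝓝 V) := by
  rw [Pool.Agent.H62.CYC.odd_iff, Pool.Agent.H62.CYC.odd_iff]
  simp only [growth_odd', rate_odd]
  exact (Pool.Agent.H62.TB.Rad.lim_iff hn (hconj hu) hV).symm

/-! ### The lower bound -/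

lemma value_append {G : Type} [Group G] (a b : G) (u w : List Letter) :
    PuncturedTorusBundles.value a b (u ++ w) =
      PuncturedTorusBundles.value a b u * PuncturedTorusBundles.value a b w :=
  Pool.Agent.H62.TV.vlu_append a b u w

lemma value_flat {G : Type} [Group G] (a b : G) (P : List (ℕ × ℕ)) (k : ℕ) :
    PuncturedTorusBundles.value a b (toWord (alternating (List.replicate k P).flatten)) =
      PuncturedTorusBundles.value a b (toWord (alternating P)) ^ k := by
  induction k with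
  | zero => simp [alternating, toWord, PuncturedTorusBundles.value]
  | succ k ih =>
    have e1 : toWord (alternating (List.replicate (k + 1) P).flatten) =
        toWord (alternating P) ++ toWord (alternating (List.replicate k P).flatten) := by
      simp [alternating, toWord, List.replicate_succ]
    rw [e1, value_append, ih, pow_succ']

lemma power_conj {u : List Letter} {P : List (ℕ × ℕ)} {j : ℤ}
    (hu : Conjugate u (delta (2 * j) ++ toWord (alternating P))) (k : ℕ) :
    Conjugate (power u k)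
      (delta (2 * (j * k)) ++ toWord (alternating (List.replicate k P).flatten)) := by
  intro G _ a b hab
  obtain ⟨g, hg⟩ := hu G a b hab
  refine ⟨g, ?_⟩
  have hp : PuncturedTorusBundles.value a b (power u k) = PuncturedTorusBundles.value a b u ^ k :=
    Pool.Agent.H62.TV.vlu_pow a b u k
  rw [value_append, PuncturedTorusBundles.value_delta] at hg
  rw [hp, hg, conj_pow, value_append, PuncturedTorusBundles.value_delta, value_flat]
  have hc : Commute ((a * b * a) ^ (2 * j))
      (PuncturedTorusBundles.value a b (toWord (alternating P))) :=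
    Pool.Agent.H62.CYC.full_vlu hab j (toWord (alternating P))
  rw [hc.mul_pow]
  congr 3
  rw [← zpow_natCast, ← _root_.zpow_mul]
  congr 1
  ring

lemma lower {A : ℕ} {P : List (ℕ × ℕ)} (hP : P ≠ [])
    (hA : ∀ p ∈ P, 1 ≤ p.1 ∧ p.1 ≤ A ∧ 1 ≤ p.2 ∧ p.2 ≤ A) {j : ℤ} {u : List Letter}
    (hu : Conjugate u (delta (2 * j) ++ toWord (alternating P))) {r : ℕ} (hodd : Odd r)
    (hr : 10 ^ 32 * (A + 1) ^ 6 ≤ r) :
    P.length / (2 * 10 ^ 24 * ((A : ℝ) + 1) ^ 6) ≤ growth u r ∧ InfiniteOrder u r := by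
  obtain ⟨M, rfl⟩ := hodd
  have hr1 : 1 ≤ (A + 1) ^ 6 := Nat.one_le_pow _ _ (by omega)
  have hM : 1 ≤ M := by
    have h2 : 10 ^ 32 * 1 ≤ 10 ^ 32 * (A + 1) ^ 6 := Nat.mul_le_mul le_rfl hr1
    have h3 := h2.trans hr
    omega
  have h1 : P.length / (2 * 10 ^ 24 * ((A : ℝ) + 1) ^ 6) ≤ growth u (2 * M + 1) := by
    rw [growth_odd]
    refine Pool.Agent.H62.TB.Rad.le_rad_of u hM fun k hk => ?_
    have hPk : (List.replicate k P).flatten ≠ [] := by
      intro h
      have h2 := congrArg List.length h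
      simp only [List.length_flatten, List.map_replicate, List.sum_replicate, List.length_nil,
        smul_eq_mul, mul_eq_zero, List.length_eq_zero_iff] at h2
      rcases h2 with h2 | h2
      · omega
      · exact hP h2
    have hAk : ∀ p ∈ (List.replicate k P).flatten, 1 ≤ p.1 ∧ p.1 ≤ A ∧ 1 ≤ p.2 ∧ p.2 ≤ A := by
      intro p hp
      rw [List.mem_flatten] at hp
      obtain ⟨l, hl, hp⟩ := hp
      rw [List.eq_of_mem_replicate hl] at hp
      exact hA p hp
    have h2 := ((PuncturedTorusBundles.result.1 A _ hPk hAk).2.2 (j * k) (power u k)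
      (power_conj hu k) (2 * M + 1) ⟨M, rfl⟩ hr).1
    rw [rate_odd] at h2
    have h3 : (((List.replicate k P).flatten.length : ℕ) : ℝ) = k * P.length := by
      simp
    rw [h3, mul_div_assoc] at h2
    exact h2
  refine ⟨h1, infinite_odd hM ?_⟩
  have hP1 : (1 : ℝ) ≤ P.length := by exact_mod_cast List.length_pos_iff.2 hP
  have h4 : 0 < growth u (2 * M + 1) := lt_of_lt_of_le (by positivity) h1
  rw [growth_odd] at h4
  have hs := Pool.Agent.H62.CYC.sc_pos hM
  by_contra hcon
  have h5 := Real.log_nonpos (Pool.Agent.H62.TB.Rad.rad_nonneg u hM) (not_lt.1 hcon)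
  have h6 := mul_nonpos_of_nonneg_of_nonpos hs.le (show 2 * Real.log
    (Pool.Agent.H62.TB.Rad.rad u M) ≤ 0 by linarith)
  linarith

/-- **The spectral radii of the quantum representations of the torus with one hole.**
Let `radius u r` be the largest absolute value of an eigenvalue of the matrices `ρ_{r,c} (u)`,
`0 ≤ c < (r - 1) / 2`, at `A_r = exp (π i / r)`, `r` odd, and `growth u r = 2 π / (r - 2) log (radius^2)`;
`rate u r = 2 π / (r - 2) log TV_r (M_u)`.
(1) If `u` is conjugate in the mapping class group to `Δ^{2j} (s_2^p s_1^{-p})^n`, `p, n ≥ 1`, then the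
growth of the spectral radius is exact: `growth u r` converges for odd `r → ∞` to the volume of the
mapping torus `M_u`.
(2) Let `u` be conjugate to `Δ^{2j} [w, Δ]^n` for some word `w` and `n ≥ 1`; this is the case for (1).  Then
`TV_r (M_u) / M^3 ≤ radius^2 ≤ 19 M^2 (1024 M^5)^n (TV_r (M_u) + 1)` for `r = 2 M + 1 ≥ 3` (the first
inequality is true for all `u`), and for `V > 0` the growth of the spectral radius converges to `V` if and
only if the growth of the Turaev-Viro invariants of `M_u` converges to `V`.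
(3) Let `u` be pseudo-Anosov, that is, conjugate to `Δ^{2j} ∏ s_2^{a_i} s_1^{-b_i}` with `m ≥ 1` pairs,
`1 ≤ a_i, b_i ≤ A`; here `A` can be the number of letters of `u`.  Then for all odd
`r ≥ 10^32 (A + 1)^6` the number `growth u r` is at least `m / (2 * 10^24 (A + 1)^6)`, and at least
`vol / ((2 v_3 + 10) * 2 * 10^24 (A + 1)^6)`; for these `r` there is a colour `2 c` such that `ρ_{r,c}` sends
`u` to an element of infinite order of the projective linear group, at all primitive roots of unity of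
order `2 r`. -/
theorem result :
    (∀ p n : ℕ, 1 ≤ p → 1 ≤ n → 0 < vol (alternating (List.replicate n (p, p))) ∧
      ∀ (j : ℤ) (u : List Letter),
        Conjugate u (delta (2 * j) ++ toWord (alternating (List.replicate n (p, p)))) →
        Tendsto (growth u) (atTop ⊓ 𝓟 {r : ℕ | Odd r})
          (𝓝 (vol (alternating (List.replicate n (p, p)))))) ∧
    (∀ (w u : List Letter) (j : ℤ) (n : ℕ), 1 ≤ n →
      Conjugate u (delta (2 * j) ++ power (bracket w) n) →
      (∀ M : ℕ, 1 ≤ M →
        turaevViro u (2 * M + 1) ≤ (M : ℝ) ^ 3 * radius u (2 * M + 1) ^ 2 ∧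
        radius u (2 * M + 1) ^ 2 ≤
          19 * (M : ℝ) ^ 2 * (1024 * (M : ℝ) ^ 5) ^ n * (turaevViro u (2 * M + 1) + 1)) ∧
      ∀ V : ℝ, 0 < V → (Tendsto (growth u) (atTop ⊓ 𝓟 {r : ℕ | Odd r}) (𝓝 V) ↔
        Tendsto (rate u) (atTop ⊓ 𝓟 {r : ℕ | Odd r}) (𝓝 V))) ∧
    (∀ (A : ℕ) (P : List (ℕ × ℕ)), P ≠ [] →
      (∀ p ∈ P, 1 ≤ p.1 ∧ p.1 ≤ A ∧ 1 ≤ p.2 ∧ p.2 ≤ A) →
      ∀ (j : ℤ) (u : List Letter),
        Conjugate u (delta (2 * j) ++ toWord (alternating P)) →
        ∀ r : ℕ, Odd r → 10 ^ 32 * (A + 1) ^ 6 ≤ r →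
          P.length / (2 * 10 ^ 24 * ((A : ℝ) + 1) ^ 6) ≤ growth u r ∧
          vol (alternating P) / ((2 * v3 + 10) * (2 * 10 ^ 24 * ((A : ℝ) + 1) ^ 6)) ≤ growth u r ∧
          InfiniteOrder u r) ∧
    (∀ u : List Letter, 2 < |(matrix u).trace| → ∀ r : ℕ, Odd r →
      10 ^ 32 * (u.length + 1) ^ 6 ≤ r →
        1 / (2 * 10 ^ 24 * ((u.length : ℝ) + 1) ^ 6) ≤ growth u r ∧ InfiniteOrder u r) := by
  refine ⟨fun p n hp hn => ?_, fun w u j n hn hu => ⟨fun M hM => ⟨tv_le u hM, radius_le hn hu hM⟩,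
    fun V hV => growth_iff hn hu hV⟩, fun A P hP hA j u hu r hodd hr => ?_, fun u hu r hodd hr => ?_⟩
  · obtain ⟨h0, h1, h2⟩ := CyclicCoversFigureEight.result.1 p n hp hn
    have h4 : vol (alternating (List.replicate n (p, p))) =
        n * CyclicCoversFigureEight.vol (CyclicCoversFigureEight.alternating [(p, p)]) := h1
    have h5 : (0 : ℝ) < n := by exact_mod_cast hn
    have hV : 0 < vol (alternating (List.replicate n (p, p))) := by
      rw [h4]
      exact mul_pos h5 h0
    refine ⟨hV, fun j u hu => ?_⟩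
    have h3 := h2 j u hu
    have hc : Conjugate u (delta (2 * j) ++ power (bracket (List.replicate p (true, true))) n) := by
      intro G _ a b hab
      obtain ⟨g, hg⟩ := hu G a b hab
      refine ⟨g, ?_⟩
      rw [hg, value_append, value_append]
      congr 3
      have e1 : PuncturedTorusBundles.value a b
          (power (bracket (List.replicate p (true, true))) n) =
          Pool.Agent.H62.TV.vlu a b (bracket (List.replicate p (true, true))) ^ n :=
        Pool.Agent.H62.TV.vlu_pow a b _ n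
      rw [e1, CyclicCoversFigureEight.bracket_eq, Pool.Agent.H62.CYC.vlu_comm_pow hab p]
      exact CyclicCoversFigureEight.value_pow a b p n
    exact (growth_iff hn hc hV).2 h3
  · have h1 := lower hP hA hu hodd hr
    refine ⟨h1.1, le_trans ?_ h1.1, h1.2⟩
    have hv2 := PuncturedTorusBundles.vol_upper P hP fun p hp => ⟨(hA p hp).1, (hA p hp).2.2.1⟩
    have hv3 := PuncturedTorusBundles.v3_nonneg
    have hA0 : (0 : ℝ) ≤ A := Nat.cast_nonneg A
    have h3 : (0 : ℝ) < 2 * 10 ^ 24 * ((A : ℝ) + 1) ^ 6 := by positivity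
    rw [div_le_div_iff₀ (by positivity) h3]
    calc vol (alternating P) * (2 * 10 ^ 24 * ((A : ℝ) + 1) ^ 6)
        ≤ ((2 * v3 + 10) * P.length) * (2 * 10 ^ 24 * ((A : ℝ) + 1) ^ 6) :=
          mul_le_mul_of_nonneg_right hv2 h3.le
      _ = P.length * ((2 * v3 + 10) * (2 * 10 ^ 24 * ((A : ℝ) + 1) ^ 6)) := by ring
  · obtain ⟨j, P, hP, hA, hc⟩ := (PuncturedTorusBundles.result.2.1 u hu).1
    have h1 := lower hP hA hc hodd hr
    refine ⟨le_trans ?_ h1.1, h1.2⟩
    have hP1 : (1 : ℝ) ≤ P.length := by exact_mod_cast List.length_pos_iff.2 hP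
    have hA0 : (0 : ℝ) ≤ u.length := Nat.cast_nonneg _
    exact div_le_div_of_nonneg_right hP1 (by positivity)

end Pool.Agent.Results.MP_f2e6dc_gt.QuantumSpectralRadius
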